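import Pool.Agent.Q295.PN.StmD

/-!
Job D2 of project PN (helper295), by helper187: avoidance probabilities of the Poisson fields.
-/

set_option autoImplicit false

namespace Pool.Agent.Q187.PN.D2A

open MeasureTheory ProbabilityTheory Finset Pool.Agent.Q295.PN

/-- generating function of a Poisson variable -/
lemma lint_pois (r : NNReal) (w : ℝ) (hw : 0 ≤ w) :
    ∫⁻ k, ENNReal.ofReal (w ^ k) ∂(poissonPMF r).toMeasure = ENNReal.ofReal (Real.exp (-(r * (1 - w)))) := by
  rw [lintegral_countable']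
  have h1 : ∀ k : ℕ, ENNReal.ofReal (w ^ k) * (poissonPMF r).toMeasure {k} =
      ENNReal.ofReal (Real.exp (-r) * ((r * w) ^ k / (Nat.factorial k))) := by
    intro k
    rw [PMF.toMeasure_apply_singleton _ _ (measurableSet_singleton k)]
    have h2 : (poissonPMF r) k = ENNReal.ofReal (Real.exp (-r) * (r : ℝ) ^ k / (Nat.factorial k)) := rfl
    rw [h2, ← ENNReal.ofReal_mul (by positivity)]
    congr 1
    rw [mul_pow]
    ring
  simp_rw [h1]
  have hs := NormedSpace.expSeries_div_hasSum_exp ((r : ℝ) * w)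
  rw [← ENNReal.ofReal_tsum_of_nonneg]
  · congr 1
    rw [tsum_mul_left, hs.tsum_eq, ← Real.exp_eq_exp_ℝ, ← Real.exp_add]
    congr 1
    ring
  · intro k
    have : 0 ≤ (r : ℝ) := r.coe_nonneg
    positivity
  · exact hs.summable.mul_left _

lemma prod_ite_lt (a : ENNReal) (c m : ℕ) (h : c ≤ m) :
    ∏ i ∈ range m, (if i < c then a else 1) = a ^ c := by
  rw [← prod_filter, prod_const]
  congr 1
  have : (range m).filter (fun i => i < c) = range c := by
    ext i
    simp only [mem_filter, mem_range]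
    omega
  rw [this, card_range]

section geo

variable (n M K : ℕ) [NeZero M] [NeZero K] (t : NNReal) (A B : Finset (Fin M × Fin K))

/-- the set avoided by the marked points -/
def XX : Set ((ℝ × ℝ) × ℝ) := {e | cell n M K e.1 ∈ A ∨ ((t : ℝ) ≤ e.2 ∧ cell n M K e.1 ∈ B)}

/-- the set avoided by the other points -/
def YY : Set (ℝ × ℝ) := {u | cell n M K u ∈ B}

variable (hD0 : S_D0) (hn : 1 ≤ n) (ht : t ≤ 1)

include hD0 hn

lemma unif_cells (D : Finset (Fin M × Fin K)) :
    (unif n).real {u | cell n M K u ∈ D} = D.card / (M * K) := by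
  classical
  obtain ⟨hp, hm, hc, -, -, -, -⟩ := hD0 n M K hn
  haveI := hp
  have h1 : {u : ℝ × ℝ | cell n M K u ∈ D} = ⋃ c ∈ D, {u | cell n M K u = c} := by
    ext u
    simp
  rw [h1, measureReal_biUnion_finset]
  · rw [sum_congr rfl fun c _ => hc c, sum_const, nsmul_eq_mul]
    ring
  · intro c _ c' _ hne
    rw [Function.onFun, Set.disjoint_left]
    intro u hu hu'
    exact hne (hu.symm.trans hu')
  · intro c _
    exact hm (measurableSet_singleton c)

lemma meas_cells (D : Finset (Fin M × Fin K)) : MeasurableSet {u | cell n M K u ∈ D} := by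
  obtain ⟨hp, hm, hc, -, -, -, -⟩ := hD0 n M K hn
  exact hm (Set.Finite.measurableSet (D.finite_toSet))

lemma meas_XX : MeasurableSet (XX n M K t A B) := by
  have hf : Measurable (fun e : (ℝ × ℝ) × ℝ => e.1) := measurable_fst
  have h1 : MeasurableSet ((fun e : (ℝ × ℝ) × ℝ => e.1) ⁻¹' {u | cell n M K u ∈ A}) := hf (meas_cells n M K hD0 hn A)
  have h2 : MeasurableSet ((fun e : (ℝ × ℝ) × ℝ => e.1) ⁻¹' {u | cell n M K u ∈ B}) := hf (meas_cells n M K hD0 hn B)
  have h3 : MeasurableSet {e : (ℝ × ℝ) × ℝ | (t : ℝ) ≤ e.2} := measurableSet_le measurable_const measurable_snd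
  exact h1.union (h3.inter h2)

lemma meas_YY : MeasurableSet (YY n M K B) := meas_cells n M K hD0 hn B

include ht

lemma real_XX : ((unif n).prod (volume.restrict (Set.Icc (0 : ℝ) 1))).real (XX n M K t A B) =
    (A.card + (1 - t) * (B \ A).card) / (M * K) := by
  classical
  obtain ⟨hp, hm, hc, -, -, hp1, ht1⟩ := hD0 n M K hn
  haveI := hp
  haveI := hp1
  have h1 : XX n M K t A B = ({u | cell n M K u ∈ A} ×ˢ Set.univ) ∪
      ({u | cell n M K u ∈ B \ A} ×ˢ {m : ℝ | (t : ℝ) ≤ m}) := by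
    ext e
    simp only [XX, Set.mem_setOf_eq, Set.mem_union, Set.mem_prod, Set.mem_univ, and_true, Finset.mem_sdiff]
    tauto
  have hmA := meas_cells n M K hD0 hn A
  have hmBA := meas_cells n M K hD0 hn (B \ A)
  have hmt : MeasurableSet {m : ℝ | (t : ℝ) ≤ m} := measurableSet_le measurable_const measurable_id
  rw [h1, measureReal_union]
  · rw [measureReal_prod_prod, measureReal_prod_prod, unif_cells n M K hD0 hn, unif_cells n M K hD0 hn,
      ht1 t t.coe_nonneg (by exact_mod_cast ht), probReal_univ]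
    ring
  · rw [Set.disjoint_left]
    rintro e ⟨h2, -⟩ ⟨h3, -⟩
    simp only [Set.mem_setOf_eq, Finset.mem_sdiff] at h2 h3
    exact h3.2 h2
  · exact hmBA.prod hmt

end geo

end Pool.Agent.Q187.PN.D2A

namespace Pool.Agent.Q187.PN

open MeasureTheory ProbabilityTheory Finset Pool.Agent.Q295.PN D2A

theorem d2 : S_D2 := by
  classical
  intro hD0 n M K _ _ t Ω _ P C Z A B hn ht hS
  haveI := hS.prob
  obtain ⟨hp, hm, hc, -, -, hp1, ht1⟩ := hD0 n M K hn
  haveI := hp
  haveI := hp1
  have hM : (0 : ℝ) < M := by exact_mod_cast NeZero.pos M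
  have hK : (0 : ℝ) < K := by exact_mod_cast NeZero.pos K
  obtain ⟨x, hx⟩ : ∃ x : ℝ, x = (A.card + (1 - t) * (B \ A).card) / (M * K) := ⟨_, rfl⟩
  obtain ⟨y, hy⟩ : ∃ y : ℝ, y = B.card / (M * K) := ⟨_, rfl⟩
  obtain ⟨X, hX⟩ : ∃ X, X = XX n M K t A B := ⟨_, rfl⟩
  obtain ⟨Y, hY⟩ : ∃ Y, Y = YY n M K B := ⟨_, rfl⟩
  have mX : MeasurableSet X := by rw [hX]; exact meas_XX n M K t A B hD0 hn
  have mY : MeasurableSet Y := by rw [hY]; exact meas_YY n M K B hD0 hn
  have rX : ((unif n).prod (volume.restrict (Set.Icc (0 : ℝ) 1))) Xᶜ = ENNReal.ofReal (1 - x) := by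
    rw [← ofReal_measureReal, probReal_compl_eq_one_sub mX, hX, real_XX n M K t A B hD0 hn ht, hx]
  have rY : (unif n) Yᶜ = ENNReal.ofReal (1 - y) := by
    rw [← ofReal_measureReal, probReal_compl_eq_one_sub mY, hY]
    unfold YY
    rw [unif_cells n M K hD0 hn, hy]
  have hx1 : 0 ≤ 1 - x := by
    have h1 : ((unif n).prod (volume.restrict (Set.Icc (0 : ℝ) 1))).real X ≤ 1 := measureReal_le_one
    rw [hX, real_XX n M K t A B hD0 hn ht] at h1
    rw [hx]; linarith
  have hy1 : 0 ≤ 1 - y := by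
    have h1 : (unif n).real Y ≤ 1 := measureReal_le_one
    rw [hY] at h1
    unfold YY at h1
    rw [unif_cells n M K hD0 hn] at h1
    rw [hy]; linarith
  -- the event
  have mZ : Measurable (fun ω i => Z i ω) := measurable_pi_lambda _ hS.mZ
  obtain ⟨G, hG⟩ : ∃ G : Set ((ℕ × ℕ) × (ℕ → ((ℝ × ℝ) × ℝ) × (ℝ × ℝ))), G = {e | (∀ i, i < e.1.1 → (e.2 i).1 ∉ X) ∧ ∀ j, j < e.1.2 → (e.2 j).2 ∉ Y} :=
    ⟨_, rfl⟩
  have mG : MeasurableSet G := by
    rw [hG]
    apply measurableSet_setOf.2
    apply Measurable.and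
    · apply Measurable.forall
      intro i
      apply Measurable.imp
      · have h1 : Measurable (fun e : (ℕ × ℕ) × (ℕ → ((ℝ × ℝ) × ℝ) × (ℝ × ℝ)) => e.1.1) := measurable_fst.comp measurable_fst
        exact (Measurable.of_discrete (f := fun m : ℕ => i < m)).comp h1
      · apply Measurable.not
        have h1 : Measurable (fun e : (ℕ × ℕ) × (ℕ → ((ℝ × ℝ) × ℝ) × (ℝ × ℝ)) => (e.2 i).1) :=
          measurable_fst.comp ((measurable_pi_apply i).comp measurable_snd)
        exact measurableSet_setOf.1 (h1 mX)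
    · apply Measurable.forall
      intro i
      apply Measurable.imp
      · have h1 : Measurable (fun e : (ℕ × ℕ) × (ℕ → ((ℝ × ℝ) × ℝ) × (ℝ × ℝ)) => e.1.2) := measurable_snd.comp measurable_fst
        exact (Measurable.of_discrete (f := fun m : ℕ => i < m)).comp h1
      · apply Measurable.not
        have h1 : Measurable (fun e : (ℕ × ℕ) × (ℕ → ((ℝ × ℝ) × ℝ) × (ℝ × ℝ)) => (e.2 i).2) :=
          measurable_snd.comp ((measurable_pi_apply i).comp measurable_snd)
        exact measurableSet_setOf.1 (h1 mY)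
  have hev : {ω | (∀ c ∈ A, kap n M K (C ω) (fun i => Z i ω) c = false) ∧
      (∀ c ∈ B, kapt t n M K (C ω) (fun i => Z i ω) c = false)} = (fun ω => (C ω, fun i => Z i ω)) ⁻¹' G := by
    ext ω
    rw [hG]
    simp only [Set.mem_setOf_eq, Set.mem_preimage, hX, hY, XX, YY, kap, kapt, decide_eq_false_iff_not]
    constructor
    · rintro ⟨h1, h2⟩
      refine ⟨?_, ?_⟩
      · rintro i hi (h | h)
        · exact h1 _ h ⟨i, hi, rfl⟩
        · exact h2 _ h.2 (Or.inl ⟨i, hi, h.1, rfl⟩)
      · intro j hj h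
        exact h2 _ h (Or.inr ⟨j, hj, rfl⟩)
    · rintro ⟨h1, h2⟩
      refine ⟨?_, ?_⟩
      · rintro c hc ⟨i, hi, rfl⟩
        exact h1 i hi (Or.inl hc)
      · rintro c hc (⟨i, hi, hm', rfl⟩ | ⟨j, hj, rfl⟩)
        · exact h1 i hi (Or.inr ⟨hm', hc⟩)
        · exact h2 j hj hc
  have hslice : ∀ c : ℕ × ℕ, (Measure.map (fun ω i => Z i ω) P) (Prod.mk c ⁻¹' G) =
      ENNReal.ofReal ((1 - x) ^ c.1) * ENNReal.ofReal ((1 - y) ^ c.2) := by
    intro c
    rw [Measure.map_apply mZ (measurable_prodMk_left mG)]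
    obtain ⟨W, hW⟩ : ∃ W : ℕ → Set (((ℝ × ℝ) × ℝ) × (ℝ × ℝ)), W = fun i => (if i < c.1 then Xᶜ else Set.univ) ×ˢ
      (if i < c.2 then Yᶜ else Set.univ) := ⟨_, rfl⟩
    have h1 : (fun ω i => Z i ω) ⁻¹' (Prod.mk c ⁻¹' G) = ⋂ i ∈ range (max c.1 c.2), Z i ⁻¹' (W i) := by
      ext ω
      rw [hG, hW]
      simp only [Set.mem_preimage, Set.mem_setOf_eq, Set.mem_iInter, Set.mem_prod, mem_range]
      constructor
      · rintro ⟨h2, h3⟩ i _
        constructor
        · split_ifs with h
          · exact h2 i h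
          · trivial
        · split_ifs with h
          · exact h3 i h
          · trivial
      · intro h2
        constructor
        · intro i hi
          have := (h2 i (lt_of_lt_of_le hi (le_max_left _ _))).1
          rwa [if_pos hi] at this
        · intro i hi
          have := (h2 i (lt_of_lt_of_le hi (le_max_right _ _))).2
          rwa [if_pos hi] at this
    have mW : ∀ i, MeasurableSet (W i) := by
      intro i
      rw [hW]
      apply MeasurableSet.prod
      · split_ifs
        · exact mX.compl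
        · exact MeasurableSet.univ
      · split_ifs
        · exact mY.compl
        · exact MeasurableSet.univ
    rw [h1, hS.indZ.measure_inter_preimage_eq_mul (range (max c.1 c.2)) (fun i _ => mW i)]
    have h2 : ∀ i, P (Z i ⁻¹' (W i)) = (if i < c.1 then ENNReal.ofReal (1 - x) else 1) * (if i < c.2 then ENNReal.ofReal (1 - y) else 1) := by
      intro i
      rw [← Measure.map_apply (hS.mZ i) (mW i), hS.lawZ i, hW, Measure.prod_prod]
      congr 1
      · split_ifs
        · exact rX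
        · exact measure_univ
      · split_ifs
        · exact rY
        · exact measure_univ
    rw [prod_congr rfl fun i _ => h2 i, prod_mul_distrib, prod_ite_lt _ _ _ (le_max_left _ _),
      prod_ite_lt _ _ _ (le_max_right _ _), ENNReal.ofReal_pow hx1, ENNReal.ofReal_pow hy1]
  have hind := (indepFun_iff_map_prod_eq_prod_map_map hS.mC.aemeasurable mZ.aemeasurable).1 hS.indCZ
  have hPG : P ((fun ω => (C ω, fun i => Z i ω)) ⁻¹' G) = ENNReal.ofReal (Real.exp (-(((n : NNReal) ^ 2 : NNReal) * (1 - (1 - x))))) *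
      ENNReal.ofReal (Real.exp (-((t * (n : NNReal) ^ 2 : NNReal) * (1 - (1 - y))))) := by
    rw [← Measure.map_apply (hS.mC.prodMk mZ) mG, hind, Measure.prod_apply mG]
    simp_rw [hslice]
    rw [hS.lawC, lintegral_prod_mul (μ := (poissonPMF ((n : NNReal) ^ 2)).toMeasure) (ν := (poissonPMF (t * (n : NNReal) ^ 2)).toMeasure)
      (f := fun k : ℕ => ENNReal.ofReal ((1 - x) ^ k)) (g := fun k : ℕ => ENNReal.ofReal ((1 - y) ^ k))
      (Measurable.of_discrete.aemeasurable) (Measurable.of_discrete.aemeasurable),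
      lint_pois _ _ hx1, lint_pois _ _ hy1]
  rw [hev, measureReal_def, hPG, ← ENNReal.ofReal_mul (Real.exp_nonneg _), ENNReal.toReal_ofReal (by positivity), ← Real.exp_add]
  congr 1
  rw [hx, hy]
  unfold mu
  push_cast
  field_simp
  ring

end Pool.Agent.Q187.PN
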