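import Pool.Agent.Q295.PN.StmD

/-!
Job D5b of project PN (helper295), by helper187: deterministic comparison of the chains of points and of cells.
-/

set_option autoImplicit false

namespace Pool.Agent.Q187.PN.D5bA

open Finset Pool.Agent.Q295.PN

lemma cl_mono (n M : ℕ) [NeZero M] {x y : ℝ} (h : x ≤ y) : cl n M x ≤ cl n M y := by
  have h1 : ⌊x * M / n⌋₊ ≤ ⌊y * M / n⌋₊ := by
    apply Nat.floor_mono
    apply div_le_div_of_nonneg_right _ (Nat.cast_nonneg n)
    exact mul_le_mul_of_nonneg_right h (Nat.cast_nonneg M)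
  show (⟨min ⌊x * M / n⌋₊ (M - 1), _⟩ : Fin M) ≤ ⟨min ⌊y * M / n⌋₊ (M - 1), _⟩
  rw [Fin.mk_le_mk]
  exact min_le_min_right _ h1

lemma cell_mono (n M K : ℕ) [NeZero M] [NeZero K] {u v : ℝ × ℝ} (h : u ≤ v) :
    cell n M K u ≤ cell n M K v :=
  ⟨cl_mono n M h.1, cl_mono n K h.2⟩

lemma lt_of_cl_lt (n M : ℕ) [NeZero M] {x y : ℝ} (h : cl n M x < cl n M y) : x < y := by
  by_contra hcon
  push Not at hcon
  exact absurd (cl_mono n M hcon) (not_le.mpr h)

lemma mc_le {ι : Type} [Fintype ι] [DecidableEq ι] [PartialOrder ι] (A : Finset ι) (k : ℕ)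
    (h : ∀ T : Finset ι, T ⊆ A → IsChain (· ≤ ·) (T : Set ι) → T.card ≤ k) : mc A ≤ k := by
  classical
  unfold mc
  refine Finset.sup_le fun T hT => ?_
  rw [mem_filter, mem_powerset] at hT
  exact h T hT.1 hT.2

lemma le_mc {ι : Type} [Fintype ι] [DecidableEq ι] [PartialOrder ι] (A T : Finset ι) (h : T ⊆ A)
    (hT : IsChain (· ≤ ·) (T : Set ι)) : T.card ≤ mc A := by
  classical
  unfold mc
  have h1 : T ∈ A.powerset.filter (fun C : Finset ι => IsChain (· ≤ ·) (C : Set ι)) := by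
    rw [mem_filter, mem_powerset]
    exact ⟨h, hT⟩
  exact Finset.le_sup (f := Finset.card) h1

section gen

variable {L : Type} (S : Finset L) (u : L → ℝ × ℝ) (A : Set (ℝ × ℝ))

lemma card_le_S (hA : ∀ p, p ∈ A ↔ ∃ l ∈ S, u l = p) (T : Finset (ℝ × ℝ)) (hT : (T : Set (ℝ × ℝ)) ⊆ A) :
    T.card ≤ S.card := by
  classical
  have h1 : T ⊆ S.image u := by
    intro p hp
    obtain ⟨l, hl, h⟩ := (hA p).1 (hT hp)
    exact mem_image.2 ⟨l, hl, h⟩
  exact (card_le_card h1).trans card_image_le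

lemma LL_le (hA : ∀ p, p ∈ A ↔ ∃ l ∈ S, u l = p) : LL A ≤ S.card := by
  unfold LL
  apply csSup_le'
  rintro k ⟨T, hT, -, rfl⟩
  exact card_le_S S u A hA T hT

lemma le_LL (hA : ∀ p, p ∈ A ↔ ∃ l ∈ S, u l = p) (T : Finset (ℝ × ℝ)) (hT : (T : Set (ℝ × ℝ)) ⊆ A)
    (hc : IsChain (· ≤ ·) (T : Set (ℝ × ℝ))) : T.card ≤ LL A := by
  unfold LL
  apply le_csSup
  · refine ⟨S.card, ?_⟩
    rintro k ⟨T, hT, -, rfl⟩
    exact card_le_S S u A hA T hT
  · exact ⟨T, hT, hc, rfl⟩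

variable (n M K : ℕ) [NeZero M] [NeZero K] (κ : Fin M × Fin K → Bool)

lemma Lc_le (hκ : ∀ c, κ c = true ↔ ∃ l ∈ S, cell n M K (u l) = c) : Lc κ ≤ S.card := by
  classical
  unfold Lc
  apply mc_le
  intro T hT _
  have h1 : T ⊆ S.image (fun l => cell n M K (u l)) := by
    intro c hc
    have h2 := hT hc
    unfold op at h2
    rw [mem_filter] at h2
    obtain ⟨l, hl, h⟩ := (hκ c).1 h2.2
    exact mem_image.2 ⟨l, hl, h⟩
  exact (card_le_card h1).trans card_image_le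

lemma LL_eq (hA : ∀ p, p ∈ A ↔ ∃ l ∈ S, u l = p)
    (hκ : ∀ c, κ c = true ↔ ∃ l ∈ S, cell n M K (u l) = c)
    (hd : ∀ l ∈ S, ∀ l' ∈ S, l ≠ l' → cl n M (u l).1 ≠ cl n M (u l').1 ∧ cl n K (u l).2 ≠ cl n K (u l').2) :
    LL A = Lc κ := by
  classical
  apply le_antisymm
  · unfold LL
    apply csSup_le'
    rintro k ⟨T, hT, hc, rfl⟩
    have h1 : (T.image (cell n M K)).card = T.card := by
      apply card_image_of_injOn
      intro p hp q hq hpq
      obtain ⟨l, hl, rfl⟩ := (hA p).1 (hT hp)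
      obtain ⟨l', hl', rfl⟩ := (hA q).1 (hT hq)
      by_contra hne
      have hll : l ≠ l' := fun h => hne (by rw [h])
      exact (hd l hl l' hl' hll).1 (congrArg Prod.fst hpq)
    rw [← h1]
    unfold Lc
    apply le_mc
    · intro c hc'
      obtain ⟨p, hp, rfl⟩ := mem_image.1 hc'
      obtain ⟨l, hl, rfl⟩ := (hA p).1 (hT hp)
      unfold op
      rw [mem_filter]
      exact ⟨mem_univ _, (hκ _).2 ⟨l, hl, rfl⟩⟩
    · rw [coe_image]
      rintro _ ⟨p, hp, rfl⟩ _ ⟨q, hq, rfl⟩ hne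
      have hpq : p ≠ q := fun h => hne (by rw [h])
      rcases hc hp hq hpq with h | h
      · exact Or.inl (cell_mono n M K h)
      · exact Or.inr (cell_mono n M K h)
  · unfold Lc
    apply mc_le
    intro T hT hc
    have hex : ∀ c ∈ T, ∃ l ∈ S, cell n M K (u l) = c := by
      intro c hcT
      have h2 := hT hcT
      unfold op at h2
      rw [mem_filter] at h2
      exact (hκ c).1 h2.2
    choose f hf1 hf2 using hex
    have h1 : (T.attach.image (fun c => u (f c.1 c.2))).card = T.card := by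
      rw [card_image_of_injective, card_attach]
      intro c c' h
      apply Subtype.ext
      have h3 : cell n M K (u (f c.1 c.2)) = cell n M K (u (f c'.1 c'.2)) := congrArg (cell n M K) h
      rwa [hf2, hf2] at h3
    rw [← h1]
    apply le_LL S u A hA
    · intro p hp
      rw [mem_coe, mem_image] at hp
      obtain ⟨c, _, rfl⟩ := hp
      exact (hA _).2 ⟨f c.1 c.2, hf1 c.1 c.2, rfl⟩
    · rw [coe_image]
      have key : ∀ c c' : T, c ≠ c' → (c : Fin M × Fin K) ≤ c' → u (f c.1 c.2) ≤ u (f c'.1 c'.2) := by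
        intro c c' hne hle
        have hff : f c.1 c.2 ≠ f c'.1 c'.2 := by
          intro h
          apply hne
          apply Subtype.ext
          have h3 : cell n M K (u (f c.1 c.2)) = cell n M K (u (f c'.1 c'.2)) := by rw [h]
          rwa [hf2, hf2] at h3
        obtain ⟨h4, h5⟩ := hd _ (hf1 c.1 c.2) _ (hf1 c'.1 c'.2) hff
        have h6 : cell n M K (u (f c.1 c.2)) ≤ cell n M K (u (f c'.1 c'.2)) := by
          rw [hf2, hf2]; exact hle
        exact ⟨(lt_of_cl_lt n M (lt_of_le_of_ne h6.1 h4)).le, (lt_of_cl_lt n K (lt_of_le_of_ne h6.2 h5)).le⟩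
      rintro _ ⟨c, _, rfl⟩ _ ⟨c', _, rfl⟩ hne
      have hcc : c ≠ c' := fun h => hne (by rw [h])
      have hcc' : (c : Fin M × Fin K) ≠ c' := fun h => hcc (Subtype.ext h)
      rcases hc c.2 c'.2 hcc' with h | h
      · exact Or.inl (key c c' hcc h)
      · exact Or.inr (key c' c hcc.symm h)

end gen

end Pool.Agent.Q187.PN.D5bA

namespace Pool.Agent.Q187.PN

open Finset Pool.Agent.Q295.PN D5bA

theorem d5b : S_D5b := by
  classical
  intro t n M K _ _ C z
  -- the labels of the first process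
  have hA1 : ∀ p, p ∈ eta C z ↔ ∃ l ∈ range C.1, (z l).1.1 = p := by
    intro p
    unfold eta
    constructor
    · rintro ⟨i, hi, h⟩
      exact ⟨i, mem_range.2 hi, h⟩
    · rintro ⟨i, hi, h⟩
      exact ⟨i, mem_range.1 hi, h⟩
  have hκ1 : ∀ c, kap n M K C z c = true ↔ ∃ l ∈ range C.1, cell n M K ((z l).1.1) = c := by
    intro c
    unfold kap
    rw [decide_eq_true_iff]
    constructor
    · rintro ⟨i, hi, h⟩
      exact ⟨i, mem_range.2 hi, h⟩
    · rintro ⟨i, hi, h⟩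
      exact ⟨i, mem_range.1 hi, h⟩
  -- the labels of the second process
  obtain ⟨S2, hS2⟩ : ∃ S2 : Finset (ℕ ⊕ ℕ), S2 = ((range C.1).filter (fun i => (t : ℝ) ≤ (z i).1.2)).disjSum (range C.2) :=
    ⟨_, rfl⟩
  obtain ⟨u2, hu2⟩ : ∃ u2 : ℕ ⊕ ℕ → ℝ × ℝ, u2 = Sum.elim (fun i => (z i).1.1) (fun j => (z j).2) := ⟨_, rfl⟩
  have hcard : S2.card ≤ C.1 + C.2 := by
    rw [hS2, card_disjSum, card_range]
    have := card_filter_le (range C.1) (fun i => (t : ℝ) ≤ (z i).1.2)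
    rw [card_range] at this
    omega
  have hex : ∀ Q : ℝ × ℝ → Prop, (∃ l ∈ S2, Q (u2 l)) ↔ (∃ i < C.1, (t : ℝ) ≤ (z i).1.2 ∧ Q (z i).1.1) ∨ ∃ j < C.2, Q (z j).2 := by
    intro Q
    rw [hS2, hu2]
    constructor
    · rintro ⟨l, hl, h⟩
      rw [mem_disjSum] at hl
      rcases hl with ⟨i, hi, rfl⟩ | ⟨j, hj, rfl⟩
      · rw [mem_filter, mem_range] at hi
        exact Or.inl ⟨i, hi.1, hi.2, h⟩
      · rw [mem_range] at hj
        exact Or.inr ⟨j, hj, h⟩
    · rintro (⟨i, hi, hm, h⟩ | ⟨j, hj, h⟩)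
      · exact ⟨Sum.inl i, inl_mem_disjSum.2 (mem_filter.2 ⟨mem_range.2 hi, hm⟩), h⟩
      · exact ⟨Sum.inr j, inr_mem_disjSum.2 (mem_range.2 hj), h⟩
  have hA2 : ∀ p, p ∈ etat t C z ↔ ∃ l ∈ S2, u2 l = p := by
    intro p
    rw [hex (fun v => v = p)]
    rfl
  have hκ2 : ∀ c, kapt t n M K C z c = true ↔ ∃ l ∈ S2, cell n M K (u2 l) = c := by
    intro c
    rw [hex (fun v => cell n M K v = c)]
    unfold kapt
    rw [decide_eq_true_iff]
  refine ⟨?_, ?_, ?_, ?_, ?_, ?_⟩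
  · exact (LL_le (range C.1) (fun l => (z l).1.1) _ hA1).trans (card_range _).le
  · exact (Lc_le (range C.1) (fun l => (z l).1.1) n M K _ hκ1).trans (card_range _).le
  · exact (LL_le S2 u2 _ hA2).trans hcard
  · exact (Lc_le S2 u2 n M K _ hκ2).trans hcard
  · intro hd
    apply LL_eq (range C.1) (fun l => (z l).1.1) _ n M K _ hA1 hκ1
    intro i hi j hj hij
    exact hd i (mem_range.1 hi) j (mem_range.1 hj) hij
  · intro hd1 hd2 hd3
    apply LL_eq S2 u2 _ n M K _ hA2 hκ2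
    intro l hl l' hl' hne
    rw [hS2, mem_disjSum] at hl hl'
    rw [hu2]
    rcases hl with ⟨i, hi, rfl⟩ | ⟨i, hi, rfl⟩ <;> rcases hl' with ⟨j, hj, rfl⟩ | ⟨j, hj, rfl⟩
    · rw [mem_filter, mem_range] at hi hj
      exact hd1 i hi.1 j hj.1 (fun h => hne (by rw [h]))
    · rw [mem_filter, mem_range] at hi
      rw [mem_range] at hj
      exact hd3 i hi.1 j hj
    · rw [mem_filter, mem_range] at hj
      rw [mem_range] at hi
      have := hd3 j hj.1 i hi
      exact ⟨this.1.symm, this.2.symm⟩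
    · rw [mem_range] at hi hj
      exact hd2 i hi j hj (fun h => hne (by rw [h]))

end Pool.Agent.Q187.PN
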