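import Pool.Agent.Q295.PN.StmD

/-!
Job FN of project PN (helper295), by helper187: numerics, the covariance on the grid.
-/

set_option autoImplicit false

namespace Pool.Agent.Q187.PN.FnA

open Finset Filter Pool.Agent.Q295.PN

section var

variable {ι : Type} [Fintype ι] [DecidableEq ι]

lemma wt_nonneg (p : ℝ) (h0 : 0 ≤ p) (h1 : p ≤ 1) (κ : ι → Bool) : 0 ≤ wt p κ := by
  unfold wt
  apply prod_nonneg
  intro i _
  split_ifs <;> linarith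

lemma sum_wt (p : ℝ) : ∑ κ : ι → Bool, wt p κ = 1 := by
  unfold wt
  rw [← Fintype.prod_sum (fun (_ : ι) (b : Bool) => if b = true then p else 1 - p)]
  simp

lemma Vr_nonneg (p : ℝ) (h0 : 0 ≤ p) (h1 : p ≤ 1) (f : (ι → Bool) → ℝ) : 0 ≤ Vr p f := by
  obtain ⟨m, hm⟩ : ∃ m, m = Ex p f := ⟨_, rfl⟩
  have h2 : 0 ≤ Ex p (fun κ => (f κ - m) ^ 2) := by
    unfold Ex
    apply sum_nonneg
    intro κ _
    exact mul_nonneg (wt_nonneg p h0 h1 κ) (sq_nonneg _)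
  have h3 : Ex p (fun κ => (f κ - m) ^ 2) = Ex p (fun κ => (f κ) ^ 2) - 2 * m * Ex p f + m ^ 2 := by
    unfold Ex
    have : ∀ κ : ι → Bool, wt p κ * (f κ - m) ^ 2 = wt p κ * (f κ) ^ 2 - 2 * m * (wt p κ * f κ) + m ^ 2 * wt p κ := by
      intro κ; ring
    rw [sum_congr rfl fun κ _ => this κ, sum_add_distrib, sum_sub_distrib, ← mul_sum, ← mul_sum, sum_wt, mul_one]
  unfold Vr
  rw [← hm] at h3 ⊢
  nlinarith

end var

/-- the occupation probability on a fine grid -/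
lemma pp_facts (n N : ℕ) (hn : 1 ≤ n) (h4 : 4 * n ≤ N) (h2 : n ^ 2 ≤ N) :
    0 < pp n N N ∧ pp n N N ≤ 1 / 16 ∧ pp n N N * (N : ℝ) ^ 2 ≤ (n : ℝ) ^ 2 ∧
    (n : ℝ) / 2 ≤ N * Real.sqrt (pp n N N) ∧ N * Real.sqrt (pp n N N) ≤ n ∧
    (N * Real.sqrt (pp n N N)) ^ 4 ≤ (N : ℝ) ^ 2 ∧ pp n N N ≤ (n : ℝ) ^ 2 / (N : ℝ) ^ 2 := by
  have hnr : (1 : ℝ) ≤ n := by exact_mod_cast hn
  have h4r : 4 * (n : ℝ) ≤ N := by exact_mod_cast h4
  have h2r : (n : ℝ) ^ 2 ≤ N := by exact_mod_cast h2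
  have hN0 : (0 : ℝ) < N := by linarith
  have hN2 : (0 : ℝ) < (N : ℝ) ^ 2 := by positivity
  obtain ⟨m, hm⟩ : ∃ m, m = mu n N N := ⟨_, rfl⟩
  have hm' : m = (n : ℝ) ^ 2 / (N : ℝ) ^ 2 := by rw [hm]; unfold mu; rw [sq (N : ℝ)]
  have hm0 : 0 < m := by rw [hm']; positivity
  have hm1 : m ≤ 1 / 16 := by
    rw [hm', div_le_iff₀ hN2]
    nlinarith
  have hmN : m * (N : ℝ) ^ 2 = (n : ℝ) ^ 2 := by rw [hm']; field_simp
  obtain ⟨p, hp⟩ : ∃ p, p = pp n N N := ⟨_, rfl⟩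
  have hp' : p = 1 - Real.exp (-m) := by rw [hp, hm]; rfl
  have hpm : p ≤ m := by
    have := Real.add_one_le_exp (-m)
    rw [hp']; linarith
  have hpl : m / 2 ≤ p := by
    have h1 : Real.exp (-m) ≤ 1 - m + m ^ 2 / 2 + 0 := by
      have hb := Real.exp_bound' (x := -m) 
      have h5 : Real.exp m ≥ 1 + m := by have := Real.add_one_le_exp m; linarith
      have h6 : Real.exp (-m) * Real.exp m = 1 := by rw [← Real.exp_add]; simp
      have h7 := Real.exp_pos (-m)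
      nlinarith [Real.quadratic_le_exp_of_nonneg hm0.le, sq_nonneg m]
    rw [hp']; nlinarith
  have hp0 : 0 < p := by linarith
  rw [← hp]
  have hsq : (N * Real.sqrt p) ^ 2 = p * (N : ℝ) ^ 2 := by
    rw [mul_pow, Real.sq_sqrt hp0.le]; ring
  have hν0 : 0 ≤ N * Real.sqrt p := by positivity
  have hup : p * (N : ℝ) ^ 2 ≤ (n : ℝ) ^ 2 := by
    rw [← hmN]; exact mul_le_mul_of_nonneg_right hpm hN2.le
  have hlo : (n : ℝ) ^ 2 / 2 ≤ p * (N : ℝ) ^ 2 := by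
    rw [← hmN]
    nlinarith
  have hle : N * Real.sqrt p ≤ n := by
    apply le_of_sq_le_sq _ (by linarith)
    rw [hsq]; exact hup
  refine ⟨hp0, by linarith, hup, ?_, hle, ?_, by rw [← hm']; exact hpm⟩
  · apply le_of_sq_le_sq _ hν0
    rw [hsq]
    nlinarith
  · have e : (N * Real.sqrt p) ^ 4 = ((N * Real.sqrt p) ^ 2) ^ 2 := by ring
    rw [e, hsq]
    have h8 : 0 ≤ p * (N : ℝ) ^ 2 := by positivity
    nlinarith

lemma ev_all (η : ℝ) (hη : 0 < η) (A C ν : ℝ) (hA : 0 < A) : ∃ n₀ : ℕ, 4 ≤ n₀ ∧ ∀ n : ℕ, n₀ ≤ n →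
    28 * Real.log n ≤ (n : ℝ) ^ (η / 6) ∧ 32 ≤ (n : ℝ) ^ (η / 3) ∧ A * (Real.log n) ^ 2 ≤ (n : ℝ) ^ (η / 2) ∧
    2 ≤ (n : ℝ) ^ (2 * η) ∧ 48 * Real.log n ≤ (n : ℝ) ^ η ∧ C ≤ (n : ℝ) ^ (3 / 100 : ℝ) ∧ ν ≤ n := by
  have hlog : ∀ M s : ℝ, ∀ k : ℕ, 0 < M → 0 < s → ∀ᶠ X : ℕ in atTop, M * Real.log X ^ k ≤ (X : ℝ) ^ s := by
    intro M s k hM hs
    have h1 := (isLittleO_log_rpow_rpow_atTop (k : ℝ) hs).def (show (0 : ℝ) < 1 / M by positivity)
    have h2 := (tendsto_natCast_atTop_atTop (R := ℝ)).eventually h1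
    filter_upwards [h2, eventually_ge_atTop 1] with X hX h1
    have hX1 : (1 : ℝ) ≤ X := by exact_mod_cast h1
    have hl := Real.log_nonneg hX1
    rw [Real.norm_of_nonneg (by positivity), Real.norm_of_nonneg (by positivity), Real.rpow_natCast] at hX
    calc M * Real.log X ^ k ≤ M * (1 / M * (X : ℝ) ^ s) := mul_le_mul_of_nonneg_left hX hM.le
      _ = _ := by field_simp
  have hpow : ∀ M s : ℝ, 0 < s → ∀ᶠ X : ℕ in atTop, M ≤ (X : ℝ) ^ s := by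
    intro M s hs
    exact ((tendsto_rpow_atTop hs).comp tendsto_natCast_atTop_atTop).eventually_ge_atTop _
  have e1 := hlog 28 (η / 6) 1 (by norm_num) (by positivity)
  have e2 := hpow 32 (η / 3) (by positivity)
  have e3 := hlog A (η / 2) 2 hA (by positivity)
  have e4 := hpow 2 (2 * η) (by positivity)
  have e5 := hlog 48 η 1 (by norm_num) hη
  have e6 := hpow C (3 / 100) (by norm_num)
  have e7 := hpow ν 1 (by norm_num)
  obtain ⟨n₁, h⟩ := eventually_atTop.1 (e1.and (e2.and (e3.and (e4.and (e5.and (e6.and e7))))))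
  refine ⟨max 4 n₁, le_max_left _ _, fun n hn => ?_⟩
  obtain ⟨a1, a2, a3, a4, a5, a6, a7⟩ := h n ((le_max_right _ _).trans hn)
  rw [pow_one] at a1 a5
  rw [Real.rpow_one] at a7
  exact ⟨a1, a2, a3, a4, a5, a6, a7⟩

lemma log_aux (x w : ℝ) (hx : 4 ≤ x) (hw0 : 0 ≤ w) (hw : w ≤ x ^ 3) : Real.log (1 + w) ≤ 4 * Real.log x := by
  have h1 : 1 + w ≤ x ^ 4 := by
    have : x ^ 4 = x * x ^ 3 := by ring
    have h3 : (64 : ℝ) ≤ x ^ 3 := by nlinarith [sq_nonneg x, sq_nonneg (x - 4)]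
    nlinarith
  calc Real.log (1 + w) ≤ Real.log (x ^ 4) := Real.log_le_log (by linarith) h1
    _ = 4 * Real.log x := by rw [Real.log_pow]; norm_num

lemma aux1 (x α : ℝ) (hx : 0 < x) (h : 1 ≤ x * α) : x ^ 2 ≤ x ^ 3 * (2 * α) := by
  have h1 : x ^ 3 * (2 * α) = x ^ 2 * (2 * (x * α)) := by ring
  rw [h1]
  have h2 : 0 < x ^ 2 := by positivity
  nlinarith

lemma aux2 (α L l : ℝ) (h0 : 0 ≤ α) (hL : L ≤ 4 * l) (hl : 1 ≤ l) : 4 * α * (3 + L) ≤ α * (28 * l) := by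
  have h1 : 4 * α * (3 + L) = α * (4 * (3 + L)) := by ring
  rw [h1]
  apply mul_le_mul_of_nonneg_left _ h0
  linarith

lemma aux3 (M l w : ℝ) (h0 : 0 ≤ M) (hl : 1 ≤ l) (h : w ≤ 1 + 10 * l * (3 + 4 * l)) : 64 * (M + w + 1) ≤ 64 * (M + 72) * l ^ 2 := by
  have h1 : l ≤ l ^ 2 := by nlinarith
  have h2 : 1 ≤ l ^ 2 := by nlinarith
  have h3 : M ≤ M * l ^ 2 := by nlinarith
  have h4 : 10 * l * (3 + 4 * l) = 30 * l + 40 * l ^ 2 := by ring
  rw [h4] at h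
  have h5 : 64 * (M + 72) * l ^ 2 = 64 * (M * l ^ 2) + 64 * 72 * l ^ 2 := by ring
  rw [h5]
  linarith

lemma aux4 (α L : ℝ) (h0 : 0 ≤ α) (hL : 0 ≤ L) : α + 2 * α * (2 + L) ≤ 4 * α * (3 + L) := by
  have := mul_nonneg h0 hL
  nlinarith

lemma aux5 (α T L : ℝ) (h0 : α ≤ 1) (hT : 0 ≤ T) : α + T * (2 + L) ≤ 1 + T * (3 + L) := by
  nlinarith

lemma aux6 (x w : ℝ) (h0 : 0 ≤ w) (h : w ≤ x ^ 2) (hx : 1 ≤ x) : w * (1 + w) ≤ 2 * x ^ 4 := by
  have h1 : 1 ≤ x ^ 2 := one_le_pow₀ hx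
  have h2 : w * (1 + w) ≤ x ^ 2 * (x ^ 2 + x ^ 2) := mul_le_mul h (by linarith) (by linarith) (by linarith)
  have h3 : x ^ 2 * (x ^ 2 + x ^ 2) = 2 * x ^ 4 := by ring
  linarith

lemma aux7 (x : ℝ) (hx : 4 ≤ x) : 1028 + 8 * x ^ 4 ≤ x ^ 6 := by
  have e4 : (256 : ℝ) ≤ x ^ 4 := by
    calc (256 : ℝ) = 4 ^ 4 := by norm_num
      _ ≤ x ^ 4 := pow_le_pow_left₀ (by norm_num) hx 4
  have e5 : (16 : ℝ) ≤ x ^ 2 := by
    calc (16 : ℝ) = 4 ^ 2 := by norm_num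
      _ ≤ x ^ 2 := pow_le_pow_left₀ (by norm_num) hx 2
  have e3 : x ^ 6 = x ^ 2 * x ^ 4 := by ring
  rw [e3]
  have := mul_le_mul_of_nonneg_right e5 (by linarith : (0 : ℝ) ≤ x ^ 4)
  linarith

lemma aux8 (A C e f X : ℝ) (hA : A ≤ C * X) (he : e ≤ 1) (hf : f ≤ 1) (hX : 1 ≤ X) : 8 * A + e + f ≤ (8 * C + 2) * X := by
  have : (8 * C + 2) * X = 8 * (C * X) + 2 * X := by ring
  linarith

lemma aux9 (x M N : ℝ) (h : 2 * (M + 1) * x ^ 2 ≤ N) (hN : 1 ≤ N) : x ^ 2 * (M + 1) ≤ 1 / 2 * N ^ 2 := by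
  have h1 : N ≤ N ^ 2 := by nlinarith
  linarith

end Pool.Agent.Q187.PN.FnA

namespace Pool.Agent.Q187.PN

open Finset Filter Pool.Agent.Q295.PN FnA

theorem fn : S_FN := by
  classical
  intro H hGV hGL hHA s δ hs0 hs1 hδ
  obtain ⟨k, hk1, hk⟩ : ∃ k : ℕ, 1 ≤ k ∧ s ^ k ≤ δ := by
    obtain ⟨k, hk⟩ := exists_pow_lt_of_lt_one hδ hs1
    refine ⟨k + 1, by omega, ?_⟩
    calc s ^ (k + 1) ≤ s ^ k := pow_le_pow_of_le_one hs0 hs1.le (by omega)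
      _ ≤ δ := hk.le
  obtain ⟨C, ν₁, hC, hν₁, HA⟩ := hHA
  have hkr : (1 : ℝ) ≤ k := by exact_mod_cast hk1
  obtain ⟨η, hη⟩ : ∃ η : ℝ, η = 1 / (200 * k) := ⟨_, rfl⟩
  have hη0 : 0 < η := by rw [hη]; positivity
  have hη1 : η ≤ 1 := by
    rw [hη, div_le_one (by positivity)]
    linarith
  obtain ⟨M, hM⟩ : ∃ M : ℕ, M = 6000 * k := ⟨_, rfl⟩
  obtain ⟨J, hJ⟩ : ∃ J : ℕ, J = 2000 * k := ⟨_, rfl⟩
  have hMη : η * M = 30 := by
    rw [hM, hη]; push_cast; field_simp; norm_num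
  have hJη : η * J = 10 := by
    rw [hJ, hη]; push_cast; field_simp; norm_num
  have hkη : 2 * η * k = 1 / 100 := by
    rw [hη]; field_simp; norm_num
  obtain ⟨ν₂, hν₂, hGLk⟩ := hGL (2 * M + J) 10
  obtain ⟨n₀, hn₀, EV⟩ := ev_all η hη0 (64 * (M + 72)) (Real.exp 1 * (8 * C + 2)) (2 * (ν₁ + ν₂)) (by positivity)
  refine ⟨n₀, by omega, fun n hn => ?_⟩
  obtain ⟨a1, a2, a3, a4, a5, a6, a7⟩ := EV n hn
  have hn4 : 4 ≤ n := hn₀.trans hn
  obtain ⟨x, hx⟩ : ∃ x : ℝ, x = n := ⟨_, rfl⟩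
  rw [← hx] at a1 a2 a3 a4 a5 a6 a7
  have hx4 : 4 ≤ x := by rw [hx]; exact_mod_cast hn4
  have hx0 : 0 < x := by linarith
  have hx1 : 1 ≤ x := by linarith
  have hlog1 : 1 ≤ Real.log x := by
    rw [Real.le_log_iff_exp_le hx0]
    have := Real.exp_one_lt_d9
    linarith
  have hlog0 : 0 ≤ Real.log x := by linarith
  -- the parameters
  obtain ⟨α, hα⟩ : ∃ α : ℝ, α = x ^ (-(η / 2)) := ⟨_, rfl⟩
  obtain ⟨T, hT⟩ : ∃ T : ℝ, T = 10 * Real.log x := ⟨_, rfl⟩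
  obtain ⟨v, hv⟩ : ∃ v : ℝ, v = 4 * α * (3 + Real.log (1 + x ^ 2 / (2 * α))) := ⟨_, rfl⟩
  obtain ⟨vT, hvT⟩ : ∃ vT : ℝ, vT = 1 + T * (3 + Real.log (1 + x ^ 2 / T)) := ⟨_, rfl⟩
  have hα0 : 0 < α := by rw [hα]; positivity
  have hα1 : α ≤ 1 := by
    rw [hα]
    exact Real.rpow_le_one_of_one_le_of_nonpos hx1 (by linarith)
  have hαx : 1 / x ≤ α := by
    rw [hα, one_div, ← Real.rpow_neg_one x]
    exact Real.rpow_le_rpow_of_exponent_le hx1 (by linarith)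
  have hT1 : 1 ≤ T := by rw [hT]; linarith
  have hw1 : 0 ≤ x ^ 2 / (2 * α) := by positivity
  have hw1' : x ^ 2 / (2 * α) ≤ x ^ 3 := by
    rw [div_le_iff₀ (by positivity)]
    have h1 : 1 ≤ x * α := by
      rw [div_le_iff₀ hx0] at hαx; linarith
    exact aux1 x α hx0 h1
  have hL1 := log_aux x _ hx4 hw1 hw1'
  have hL1' : 0 ≤ Real.log (1 + x ^ 2 / (2 * α)) := Real.log_nonneg (by linarith)
  have hw2 : 0 ≤ x ^ 2 / T := by positivity
  have hw2' : x ^ 2 / T ≤ x ^ 3 := by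
    rw [div_le_iff₀ (by linarith)]
    have h3 : x ^ 2 ≤ x ^ 3 := pow_le_pow_right₀ hx1 (by norm_num)
    have h4 : 0 < x ^ 3 := by positivity
    have h5 : x ^ 3 * 1 ≤ x ^ 3 * T := mul_le_mul_of_nonneg_left hT1 h4.le
    linarith
  have hL2 := log_aux x _ hx4 hw2 hw2'
  have hL2' : 0 ≤ Real.log (1 + x ^ 2 / T) := Real.log_nonneg (by linarith)
  have hv0 : 0 ≤ v := by rw [hv]; positivity
  have hvT0 : 0 ≤ vT := by rw [hvT]; positivity
  have hvle : v ≤ x ^ (-(η / 3)) := by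
    have h1 : v ≤ α * (28 * Real.log x) := by
      rw [hv]
      exact aux2 α _ _ hα0.le hL1 hlog1
    have h2 : α * (28 * Real.log x) ≤ α * x ^ (η / 6) := mul_le_mul_of_nonneg_left a1 hα0.le
    have h3 : α * x ^ (η / 6) = x ^ (-(η / 3)) := by
      rw [hα, ← Real.rpow_add hx0]
      congr 1
      ring
    linarith
  have h32 : 32 * v ≤ 1 := by
    have h1 : 32 * x ^ (-(η / 3)) ≤ 1 := by
      rw [Real.rpow_neg hx0.le, ← div_eq_mul_inv, div_le_one (by positivity)]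
      exact a2
    linarith
  have hB : 64 * (M + vT + 1) / α ≤ x ^ η := by
    rw [div_le_iff₀ hα0]
    have h1 : x ^ η * α = x ^ (η / 2) := by
      rw [hα, ← Real.rpow_add hx0]
      congr 1
      ring
    rw [h1]
    refine le_trans ?_ a3
    have hMr : (0 : ℝ) ≤ M := Nat.cast_nonneg M
    have h2 : vT ≤ 1 + 10 * Real.log x * (3 + 4 * Real.log x) := by
      rw [hvT]
      have h9 : T * (3 + Real.log (1 + x ^ 2 / T)) ≤ T * (3 + 4 * Real.log x) :=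
        mul_le_mul_of_nonneg_left (by linarith) (by linarith)
      rw [← hT]
      linarith
    exact aux3 M _ vT hMr hlog1 h2
  have hs₀ : x ^ (-(2 * η)) ≤ 1 / 2 := by
    rw [Real.rpow_neg hx0.le, ← one_div]
    exact one_div_le_one_div_of_le (by norm_num) a4
  -- the size of the grid
  obtain ⟨N₀, hN₀⟩ := exists_nat_ge (4 * x + x ^ 2 + 2 * x ^ 2 / α + 2 * (M + 1) * x ^ 2)
  refine ⟨N₀, fun N hN ρ hρ0 hρs => ?_⟩
  have hNr : (N₀ : ℝ) ≤ N := by exact_mod_cast hN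
  have hNx : 4 * x + x ^ 2 + 2 * x ^ 2 / α + 2 * (M + 1) * x ^ 2 ≤ N := hN₀.trans hNr
  have t1 : 0 ≤ 2 * x ^ 2 / α := by positivity
  have t2 : 0 ≤ 2 * ((M : ℝ) + 1) * x ^ 2 := by positivity
  have t3 : 0 < x ^ 2 := by positivity
  have hN4 : 4 * n ≤ N := by
    have : 4 * (n : ℝ) ≤ N := by rw [← hx]; linarith
    exact_mod_cast this
  have hN2 : n ^ 2 ≤ N := by
    have : (n : ℝ) ^ 2 ≤ N := by rw [← hx]; linarith
    exact_mod_cast this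
  obtain ⟨b1, b2, b3, b4, b5, b6, b7⟩ := pp_facts n N (by omega) hN4 hN2
  rw [← hx] at b3 b4 b5 b7
  obtain ⟨p, hp⟩ : ∃ p, p = pp n N N := ⟨_, rfl⟩
  rw [← hp] at b1 b2 b3 b4 b5 b6 b7 ⊢
  have hNpos : (0 : ℝ) < N := by linarith
  have hNsq : (0 : ℝ) < (N : ℝ) ^ 2 := by positivity
  have hp1 : p < 1 := by linarith
  -- p N is small
  have hpN : 2 * N * p ≤ α := by
    have h1 : N * p ≤ x ^ 2 / N := by
      rw [le_div_iff₀ hNpos]
      have h0 : (N : ℝ) * p * N = p * (N : ℝ) ^ 2 := by ring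
      rw [h0]
      exact b3
    have h2 : x ^ 2 / N ≤ α / 2 := by
      rw [div_le_iff₀ hNpos]
      have h3 : 2 * x ^ 2 / α ≤ N := by linarith
      rw [div_le_iff₀ hα0] at h3
      linarith
    linarith
  have hpM : p * (M + 1) ≤ 1 / 2 := by
    have hMr : (0 : ℝ) ≤ M := Nat.cast_nonneg M
    have h1 : p ≤ x ^ 2 / (N : ℝ) ^ 2 := b7
    have h2 : x ^ 2 / (N : ℝ) ^ 2 * (M + 1) ≤ 1 / 2 := by
      rw [div_mul_eq_mul_div, div_le_iff₀ hNsq]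
      have h3 : 2 * ((M : ℝ) + 1) * x ^ 2 ≤ N := by linarith
      have h4 : (1 : ℝ) ≤ N := by linarith
      exact aux9 x M N h3 h4
    have h5 : p * (M + 1) ≤ x ^ 2 / (N : ℝ) ^ 2 * (M + 1) := mul_le_mul_of_nonneg_right h1 (by linarith)
    linarith
  have hpow : 1 / 2 ≤ (1 - p) ^ (M + 1) := by
    have h1 := one_add_mul_le_pow (show (-2 : ℝ) ≤ -p by linarith) (M + 1)
    push_cast at h1
    have h2 : 1 + -p = 1 - p := by ring
    rw [h2] at h1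
    have h3 : ((M : ℝ) + 1) * -p = -(p * (M + 1)) := by ring
    rw [h3] at h1
    linarith
  have hGVu : ∀ c : ℝ, 0 < c → 2 * N * p + c * (2 + Real.log (1 + N ^ 2 * p / c)) ≤ α + c * (2 + Real.log (1 + x ^ 2 / c)) := by
    intro c hc
    have h1 : Real.log (1 + N ^ 2 * p / c) ≤ Real.log (1 + x ^ 2 / c) := by
      apply Real.log_le_log (by positivity)
      have h2 : N ^ 2 * p / c ≤ x ^ 2 / c := by
        apply div_le_div_of_nonneg_right _ hc.le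
        linarith
      linarith
    have h3 : c * (2 + Real.log (1 + N ^ 2 * p / c)) ≤ c * (2 + Real.log (1 + x ^ 2 / c)) :=
      mul_le_mul_of_nonneg_left (by linarith) hc.le
    linarith
  obtain ⟨g1, g2⟩ := hGV N p (2 * α) b1 hp1 (by positivity)
  obtain ⟨g3, g4⟩ := hGV N p T b1 hp1 (by linarith)
  have k1 : α + 2 * α * (2 + Real.log (1 + x ^ 2 / (2 * α))) ≤ v := by
    rw [hv]
    exact aux4 α _ hα0.le hL1'
  have k2 : α + T * (2 + Real.log (1 + x ^ 2 / T)) ≤ vT := by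
    rw [hvT]
    exact aux5 α T _ hα1 (by linarith)
  have k3 := hGVu (2 * α) (by positivity)
  have k4 := hGVu T (by linarith)
  -- the error term
  obtain ⟨ν, hν⟩ : ∃ ν, ν = N * Real.sqrt p := ⟨_, rfl⟩
  rw [← hν] at b4 b5 b6
  have hν0 : 0 < ν := by linarith
  have hPr := hGLk N p b1 b2 (by rw [← hν]; linarith)
  rw [← hν] at hPr
  have hPr' : ν ^ (-(10 : ℝ)) ≤ 1024 * x ^ (-(10 : ℝ)) := by
    rw [Real.rpow_neg hν0.le, Real.rpow_neg hx0.le]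
    have h1 : (x / 2) ^ (10 : ℝ) ≤ ν ^ (10 : ℝ) := Real.rpow_le_rpow (by linarith) b4 (by norm_num)
    have h2 : (x / 2) ^ (10 : ℝ) = x ^ (10 : ℝ) / 1024 := by
      rw [Real.div_rpow hx0.le (by norm_num)]
      norm_num
    rw [h2] at h1
    have h3 : (0 : ℝ) < x ^ (10 : ℝ) := by positivity
    calc (ν ^ (10 : ℝ))⁻¹ ≤ (x ^ (10 : ℝ) / 1024)⁻¹ := inv_anti₀ (by positivity) h1
      _ = 1024 * (x ^ (10 : ℝ))⁻¹ := by rw [inv_div]; ring
  have hvM : v ^ M ≤ x ^ (-(10 : ℝ)) := by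
    calc v ^ M ≤ (x ^ (-(η / 3))) ^ M := pow_le_pow_left₀ hv0 hvle M
      _ = x ^ (-(10 : ℝ)) := by
        rw [← Real.rpow_natCast, ← Real.rpow_mul hx0.le]
        congr 1
        have : -(η / 3) * (M : ℝ) = -(η * M) / 3 := by ring
        rw [this, hMη]; norm_num
  have hexpT : Real.exp (-T) = x ^ (-(10 : ℝ)) := by
    rw [Real.rpow_def_of_pos hx0, hT]
    congr 1
    ring
  have i10 : x ^ (-(10 : ℝ)) = 1 / x ^ 10 := by
    rw [Real.rpow_neg hx0.le, one_div]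
    congr 1
    exact_mod_cast Real.rpow_natCast x 10
  have hpNN : p * (N : ℝ) ^ 2 * (1 + p * (N : ℝ) ^ 2) ≤ 2 * x ^ 4 := by
    have h1 : 0 ≤ p * (N : ℝ) ^ 2 := by positivity
    exact aux6 x _ h1 b3 hx1
  have herr : 4 * (v ^ M + p * (N : ℝ) ^ 2 * (1 + p * (N : ℝ) ^ 2) * Real.exp (-T)) +
      Pr p (fun κ : Fin N × Fin N → Bool => Lc κ ≤ 2 * M + J) ≤ 1 / x ^ 4 := by
    rw [hexpT]
    rw [i10] at hvM hPr' ⊢
    have h1 : p * (N : ℝ) ^ 2 * (1 + p * (N : ℝ) ^ 2) * (1 / x ^ 10) ≤ 2 * x ^ 4 * (1 / x ^ 10) :=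
      mul_le_mul_of_nonneg_right hpNN (by positivity)
    have h2 : Pr p (fun κ : Fin N × Fin N → Bool => Lc κ ≤ 2 * M + J) ≤ 1024 * (1 / x ^ 10) := hPr.trans hPr'
    have h3 : 4 * (1 / x ^ 10 + 2 * x ^ 4 * (1 / x ^ 10)) + 1024 * (1 / x ^ 10) ≤ 1 / x ^ 4 := by
      have e1 : 4 * (1 / x ^ 10 + 2 * x ^ 4 * (1 / x ^ 10)) + 1024 * (1 / x ^ 10) = (1028 + 8 * x ^ 4) / x ^ 10 := by
        field_simp
        ring
      rw [e1, div_le_div_iff₀ (by positivity) (by positivity)]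
      have e2 : 1 * x ^ 10 = x ^ 6 * x ^ 4 := by ring
      rw [e2]
      apply mul_le_mul_of_nonneg_right _ (by positivity)
      exact aux7 x hx4
    linarith
  obtain ⟨r1, r2⟩ := H N p α T v vT (x ^ η) (1 / x ^ 4) (6 * Real.log x) (x ^ (-(2 * η))) ρ M J k b1 hp1 hα0 hα1
    (by rw [hM]; omega) hpow hv0 h32 hvT0 (fun y => (g1 y).trans (k3.trans k1)) (fun z => (g2 z).trans (k3.trans k1))
    (fun y => (g3 y).trans (k4.trans k2)) (fun z => (g4 z).trans (k4.trans k2)) hB herr (by linarith)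
    (by positivity) hs₀ hρ0 (by linarith)
  refine ⟨r1, r2.trans ?_⟩
  apply add_le_add
  · have c1 : ((x ^ (-(2 * η)))⁻¹) ^ k = x ^ (1 / 100 : ℝ) := by
      rw [← Real.rpow_neg hx0.le, ← Real.rpow_natCast, ← Real.rpow_mul hx0.le]
      congr 1
      rw [neg_neg]
      exact hkη
    have c2 : Real.exp (8 * x ^ η * (6 * Real.log x) * x ^ (-(2 * η))) ≤ Real.exp 1 := by
      apply Real.exp_le_exp.2
      have h1 : 8 * x ^ η * (6 * Real.log x) * x ^ (-(2 * η)) = 48 * Real.log x * (x ^ η * x ^ (-(2 * η))) := by ring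
      have h2 : x ^ η * x ^ (-(2 * η)) = (x ^ η)⁻¹ := by
        rw [← Real.rpow_add hx0, ← Real.rpow_neg hx0.le]
        congr 1
        ring
      rw [h1, h2, ← div_eq_mul_inv, div_le_one (by positivity)]
      exact a5
    have c3 : p * ∑ y : Fin N × Fin N, (rr p 0 y) ^ 2 ≤ C * x ^ (52 / 100 : ℝ) := by
      refine (HA p N b1 b2 (by rw [← hν]; linarith) (by rw [← hν]; exact b6)).trans ?_
      rw [← hν]
      apply mul_le_mul_of_nonneg_left _ (by linarith)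
      exact Real.rpow_le_rpow hν0.le b5 (by norm_num)
    have c4 : ((x ^ η)⁻¹) ^ J = 1 / x ^ 10 := by
      rw [← i10, ← Real.rpow_neg hx0.le, ← Real.rpow_natCast, ← Real.rpow_mul hx0.le]
      congr 1
      have : -η * (J : ℝ) = -(η * J) := by ring
      rw [this, hJη]
    have c5 : 2 * (2 * (1 / x ^ 4) + ((x ^ η)⁻¹) ^ J) ^ 2 * (p * (N : ℝ) ^ 2) ≤ 1 := by
      rw [c4]
      have h1 : 1 / x ^ 10 ≤ 1 / x ^ 4 := one_div_le_one_div_of_le (by positivity) (pow_le_pow_right₀ hx1 (by norm_num))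
      have h0 : 0 < 1 / x ^ 10 := by positivity
      have h2 : (2 * (1 / x ^ 4) + 1 / x ^ 10) ^ 2 ≤ (3 * (1 / x ^ 4)) ^ 2 := by
        apply pow_le_pow_left₀ (by positivity)
        linarith
      have h3 : 2 * (2 * (1 / x ^ 4) + 1 / x ^ 10) ^ 2 * (p * (N : ℝ) ^ 2) ≤ 2 * (3 * (1 / x ^ 4)) ^ 2 * x ^ 2 :=
        mul_le_mul (by linarith) b3 (by positivity) (by positivity)
      have h4 : 2 * (3 * (1 / x ^ 4)) ^ 2 * x ^ 2 = 18 / x ^ 6 := by field_simp; norm_num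
      rw [h4] at h3
      refine h3.trans ?_
      rw [div_le_one (by positivity)]
      calc (18 : ℝ) ≤ 4 ^ 6 := by norm_num
        _ ≤ x ^ 6 := pow_le_pow_left₀ (by norm_num) hx4 6
    have c6 : p * (N : ℝ) ^ 2 * Real.exp (-(6 * Real.log x)) ≤ 1 := by
      have h1 : Real.exp (-(6 * Real.log x)) = 1 / x ^ 6 := by
        rw [Real.exp_neg, one_div]
        congr 1
        rw [← Real.rpow_natCast x 6, Real.rpow_def_of_pos hx0]
        congr 1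
        push_cast
        ring
      rw [h1]
      calc p * (N : ℝ) ^ 2 * (1 / x ^ 6) ≤ x ^ 2 * (1 / x ^ 6) := mul_le_mul_of_nonneg_right b3 (by positivity)
        _ = 1 / x ^ 4 := by field_simp
        _ ≤ 1 := by
          rw [div_le_one (by positivity)]
          exact one_le_pow₀ hx1
    rw [c1]
    have hx52 : 1 ≤ x ^ (52 / 100 : ℝ) := Real.one_le_rpow hx1 (by norm_num)
    have c7 : 8 * (p * ∑ y : Fin N × Fin N, (rr p 0 y) ^ 2) + 2 * (2 * (1 / x ^ 4) + ((x ^ η)⁻¹) ^ J) ^ 2 * (p * (N : ℝ) ^ 2) +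
        p * (N : ℝ) ^ 2 * Real.exp (-(6 * Real.log x)) ≤ (8 * C + 2) * x ^ (52 / 100 : ℝ) :=
      aux8 _ _ _ _ _ c3 c5 c6 hx52
    have hx01 : 0 < x ^ (1 / 100 : ℝ) := by positivity
    have c8 : 0 ≤ (8 * C + 2) * x ^ (52 / 100 : ℝ) := by
      have : 0 ≤ 8 * C + 2 := by linarith
      positivity
    calc x ^ (1 / 100 : ℝ) * Real.exp (8 * x ^ η * (6 * Real.log x) * x ^ (-(2 * η))) *
          (8 * (p * ∑ y : Fin N × Fin N, (rr p 0 y) ^ 2) + 2 * (2 * (1 / x ^ 4) + ((x ^ η)⁻¹) ^ J) ^ 2 * (p * (N : ℝ) ^ 2) +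
          p * (N : ℝ) ^ 2 * Real.exp (-(6 * Real.log x)))
        ≤ x ^ (1 / 100 : ℝ) * Real.exp 1 * ((8 * C + 2) * x ^ (52 / 100 : ℝ)) := by
          refine (mul_le_mul_of_nonneg_left c7 (by positivity)).trans ?_
          apply mul_le_mul_of_nonneg_right _ c8
          exact mul_le_mul_of_nonneg_left c2 hx01.le
      _ = Real.exp 1 * (8 * C + 2) * (x ^ (1 / 100 : ℝ) * x ^ (52 / 100 : ℝ)) := by ring
      _ ≤ x ^ (3 / 100 : ℝ) * (x ^ (1 / 100 : ℝ) * x ^ (52 / 100 : ℝ)) := mul_le_mul_of_nonneg_right a6 (by positivity)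
      _ = (n : ℝ) ^ (56 / 100 : ℝ) := by
          rw [← Real.rpow_add hx0, ← Real.rpow_add hx0, ← hx]
          norm_num
  · apply mul_le_mul_of_nonneg_right _ (Vr_nonneg p b1.le hp1.le _)
    exact (pow_le_pow_left₀ hρ0 hρs k).trans hk

end Pool.Agent.Q187.PN
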